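import Pool.Agent.Work.MP_ad6a67_lc.Sound
import Mathlib.Order.Zorn
import Batteries.Data.Nat.Lemmas
import Mathlib.Tactic.Linarith
import Mathlib.Tactic.Positivity
import Mathlib.Tactic.NormNum

/-!
Completeness with respect to small coded models.
-/

namespace Pool.Agent.Work.MP_ad6a67_lc

/-- Lindenbaum: a non-theorem is false under a valuation making all theorems true. -/
theorem lindenbaum {S : Set Opt} {φ : Form} (h : ¬ Thm S φ) :
    ∃ w : Form → Prop, (∀ ψ, Thm S ψ → ψ.tv w) ∧ ¬ φ.tv w := by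
  let F : Set (Set Form) :=
    {Γ | (∀ ψ, Thm S ψ → ψ ∈ Γ) ∧ (∀ ψ χ, Form.imp ψ χ ∈ Γ → ψ ∈ Γ → χ ∈ Γ) ∧ φ ∉ Γ}
  obtain ⟨M, -, hM⟩ := zorn_subset_nonempty F (by
    intro c hc hch ⟨Γ₀, hΓ₀⟩
    refine ⟨⋃₀ c, ⟨fun ψ hψ => ⟨Γ₀, hΓ₀, (hc hΓ₀).1 ψ hψ⟩, ?_, ?_⟩,
      fun s hs => Set.subset_sUnion_of_mem hs⟩
    · rintro ψ χ ⟨A, hA, h1⟩ ⟨B, hB, h2⟩
      rcases hch.total hA hB with hAB | hAB
      · exact ⟨B, hB, (hc hB).2.1 ψ χ (hAB h1) h2⟩
      · exact ⟨A, hA, (hc hA).2.1 ψ χ h1 (hAB h2)⟩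
    · rintro ⟨A, hA, h1⟩
      exact (hc hA).2.2 h1) {ψ | Thm S ψ} ⟨fun ψ hψ => hψ, fun ψ χ => Thm.mp ψ χ, h⟩
  obtain ⟨hT, hmp, hφ⟩ := hM.prop
  have t1 : ∀ A B : Form, (∀ w, A.tv w → B.tv w) → A ∈ M → B ∈ M := fun A B H hA =>
    hmp A B (hT _ (Thm.taut _ fun w => H w)) hA
  have t2 : ∀ A B C : Form, (∀ w, A.tv w → B.tv w → C.tv w) → A ∈ M → B ∈ M → C ∈ M :=
    fun A B C H hA hB => hmp B C (hmp A (.imp B C) (hT _ (Thm.taut _ fun w => H w)) hA) hB
  have hnot : ∀ ψ, ψ ∉ M → Form.imp ψ φ ∈ M := by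
    intro ψ hψ
    by_contra hcon
    have hsub : M ⊆ {χ | Form.imp ψ χ ∈ M} := fun χ hχ =>
      t1 χ (.imp ψ χ) (fun w h _ => h) hχ
    have hmem : {χ | Form.imp ψ χ ∈ M} ∈ F := by
      refine ⟨fun χ hχ => hsub (hT χ hχ), fun χ θ h1 h2 => ?_, hcon⟩
      exact t2 (.imp ψ (.imp χ θ)) (.imp ψ χ) (.imp ψ θ) (fun w a b c => a c (b c)) h1 h2
    have := hM.eq_of_subset hmem hsub
    apply hψ
    rw [this]
    exact hT _ (Thm.taut _ fun w h => h)
  have hneg : ∀ ψ, Form.neg ψ ∈ M ↔ ψ ∉ M := by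
    intro ψ
    constructor
    · intro h1 h2
      exact hφ (t2 (.neg ψ) ψ φ (fun w a b => (a b).elim) h1 h2)
    · intro h1
      by_contra h2
      refine hφ (t2 (.imp ψ φ) (.imp (.neg ψ) φ) φ (fun w a b => ?_) (hnot _ h1) (hnot _ h2))
      by_cases hc : ψ.tv w
      · exact a hc
      · exact b hc
  have truth : ∀ ψ : Form, ψ.tv (· ∈ M) ↔ ψ ∈ M := by
    intro ψ
    induction ψ with
    | le a b => exact Iff.rfl
    | con a b => exact Iff.rfl
    | bnd a => exact Iff.rfl
    | neg ψ ih => rw [hneg, ← ih]; exact Iff.rfl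
    | and ψ χ ih1 ih2 =>
      simp only [Form.tv, ih1, ih2]
      exact ⟨fun h => t2 ψ χ _ (fun w a b => ⟨a, b⟩) h.1 h.2,
        fun h => ⟨t1 (.and ψ χ) ψ (fun w a => a.1) h, t1 (.and ψ χ) χ (fun w a => a.2) h⟩⟩
    | or ψ χ ih1 ih2 =>
      simp only [Form.tv, ih1, ih2]
      refine ⟨fun h => h.elim (t1 ψ _ fun w a => Or.inl a) (t1 χ _ fun w a => Or.inr a),
        fun h => ?_⟩
      by_cases h1 : ψ ∈ M
      · exact Or.inl h1
      · exact Or.inr (t2 (.or ψ χ) (.neg ψ) χ (fun w a b => Or.resolve_left a b) h ((hneg ψ).2 h1))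
    | imp ψ χ ih1 ih2 =>
      simp only [Form.tv, ih1, ih2]
      refine ⟨fun h => ?_, fun h h1 => hmp ψ χ h h1⟩
      by_cases h1 : ψ ∈ M
      · exact t1 χ _ (fun w a _ => a) (h h1)
      · exact t1 (.neg ψ) _ (fun w a b => (a b).elim) ((hneg ψ).2 h1)
    | iff ψ χ ih1 ih2 =>
      simp only [Form.tv, ih1, ih2]
      refine ⟨fun h => ?_, fun h => ⟨t2 (.iff ψ χ) ψ χ (fun w a b => Iff.mp a b) h,
        t2 (.iff ψ χ) χ ψ (fun w a b => Iff.mpr a b) h⟩⟩
      by_cases h1 : ψ ∈ M
      · exact t2 ψ χ _ (fun w a b => ⟨fun _ => b, fun _ => a⟩) h1 (h.1 h1)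
      · exact t2 (.neg ψ) (.neg χ) _ (fun w a b => ⟨fun c => (a c).elim, fun c => (b c).elim⟩)
          ((hneg ψ).2 h1) ((hneg χ).2 fun h2 => h1 (h.2 h2))
  exact ⟨(· ∈ M), fun ψ hψ => (truth ψ).2 (hT ψ hψ), fun h' => hφ ((truth φ).1 h')⟩

/-- The valuation reading variable `i` at the point `x` as the `i`-th bit of `x`. -/
def bitv (i x : ℕ) : Prop := x.testBit i = true

/-- The coded relation. -/
def rel (K Rc x y : ℕ) : Prop := Rc.testBit (x * K + y) = true

/-- Truth of atomic formulas in the coded model. -/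
def wN (K Rc Bc : ℕ) : Form → Prop
  | .le a b => ∀ x < K, rel K Rc x x → a.ev bitv x → b.ev bitv x
  | .con a b => ∃ x < K, ∃ y < K, rel K Rc x y ∧ a.ev bitv x ∧ b.ev bitv y
  | .bnd a => ∀ x < K, rel K Rc x x → a.ev bitv x → Bc.testBit x = true
  | _ => True

def Good (K Rc : ℕ) : Prop := ∀ x < K, ∀ y < K, rel K Rc x y → rel K Rc y x ∧ rel K Rc x x

def NontrivN (K Rc : ℕ) : Prop := ∃ x < K, rel K Rc x x

def ConnN (K Rc : ℕ) : Prop :=
  ∀ A < 2 ^ K, (∃ x < K, rel K Rc x x ∧ A.testBit x = true) →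
    (∃ y < K, rel K Rc y y ∧ ¬ A.testBit y = true) →
    ∃ x < K, ∃ y < K, rel K Rc x y ∧ A.testBit x = true ∧ ¬ A.testBit y = true

/-- Validity in all coded models with `K` available points. -/
def ValidN (S : Set Opt) (K : ℕ) (φ : Form) : Prop :=
  ∀ Rc < 2 ^ (K * K), ∀ Bc < 2 ^ K, Good K Rc → (Opt.nontriv ∈ S → NontrivN K Rc) →
    (Opt.conn ∈ S → ConnN K Rc) → φ.tv (wN K Rc Bc)

theorem exists_bits (n : ℕ) (P : ℕ → Prop) :
    ∃ A < 2 ^ n, ∀ i < n, (A.testBit i = true ↔ P i) := by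
  classical
  refine ⟨Nat.ofBits (fun i : Fin n => decide (P i)), Nat.ofBits_lt_two_pow _, fun i hi => ?_⟩
  rw [Nat.testBit_ofBits_lt _ _ hi]
  simp

theorem tv_congr {w w' : Form → Prop} (φ : Form) (P : Term → Prop)
    (hle : ∀ a b, P a → P b → (w (.le a b) ↔ w' (.le a b)))
    (hcon : ∀ a b, P a → P b → (w (.con a b) ↔ w' (.con a b)))
    (hbnd : ∀ a, P a → (w (.bnd a) ↔ w' (.bnd a)))
    (n : ℕ) (hP : ∀ a : Term, (∀ p, a.Occ p → p < n) → P a) (hφ : ∀ p, φ.Occ p → p < n) :
    φ.tv w ↔ φ.tv w' := by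
  induction φ with
  | le a b => exact hle a b (hP a fun p h => hφ p (Or.inl h)) (hP b fun p h => hφ p (Or.inr h))
  | con a b => exact hcon a b (hP a fun p h => hφ p (Or.inl h)) (hP b fun p h => hφ p (Or.inr h))
  | bnd a => exact hbnd a (hP a fun p h => hφ p h)
  | neg ψ ih => simp only [Form.tv, ih hφ]
  | and ψ χ ih1 ih2 =>
    simp only [Form.tv, ih1 fun p h => hφ p (Or.inl h), ih2 fun p h => hφ p (Or.inr h)]
  | or ψ χ ih1 ih2 =>
    simp only [Form.tv, ih1 fun p h => hφ p (Or.inl h), ih2 fun p h => hφ p (Or.inr h)]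
  | imp ψ χ ih1 ih2 =>
    simp only [Form.tv, ih1 fun p h => hφ p (Or.inl h), ih2 fun p h => hφ p (Or.inr h)]
  | iff ψ χ ih1 ih2 =>
    simp only [Form.tv, ih1 fun p h => hφ p (Or.inl h), ih2 fun p h => hφ p (Or.inr h)]

theorem tv_congr' {w w' : Form → Prop} (φ : Form)
    (hle : ∀ a b, (w (.le a b) ↔ w' (.le a b)))
    (hcon : ∀ a b, (w (.con a b) ↔ w' (.con a b)))
    (hbnd : ∀ a, (w (.bnd a) ↔ w' (.bnd a))) :
    φ.tv w ↔ φ.tv w' := by
  induction φ with
  | le a b => exact hle a b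
  | con a b => exact hcon a b
  | bnd a => exact hbnd a
  | neg ψ ih => simp only [Form.tv, ih]
  | and ψ χ ih1 ih2 => simp only [Form.tv, ih1, ih2]
  | or ψ χ ih1 ih2 => simp only [Form.tv, ih1, ih2]
  | imp ψ χ ih1 ih2 => simp only [Form.tv, ih1, ih2]
  | iff ψ χ ih1 ih2 => simp only [Form.tv, ih1, ih2]

theorem ev_subtype {P : ℕ → Prop} (a : Term) (x : Subtype P) :
    a.ev (fun i (y : Subtype P) => bitv i y.1) x ↔ a.ev bitv x.1 := by
  induction a with
  | var i => exact Iff.rfl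
  | zero => exact Iff.rfl
  | one => exact Iff.rfl
  | add a b iha ihb => simp only [Term.ev, iha, ihb]
  | mul a b iha ihb => simp only [Term.ev, iha, ihb]
  | star a iha => simp only [Term.ev, iha]

theorem Valid.validN {S : Set Opt} {φ : Form} (h : Valid S φ) (K : ℕ) : ValidN S K φ := by
  intro Rc _ Bc _ hG hN hC
  let M : Model {x : ℕ // x < K ∧ rel K Rc x x} :=
    { R := fun x y => rel K Rc x.1 y.1
      Bd := fun x => Bc.testBit x.1 = true
      v := fun i y => bitv i y.1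
      refl := fun x => x.2.2
      symm := fun x y h => (hG _ x.2.1 _ y.2.1 h).1 }
  have hok : M.Ok S := by
    refine ⟨fun hS => ?_, fun hS => ?_⟩
    · obtain ⟨x, h1, h2⟩ := hN hS
      exact ⟨⟨x, h1, h2⟩⟩
    · intro A ⟨x, hx⟩ ⟨y, hy⟩
      obtain ⟨Ac, hAc, hA⟩ := exists_bits K (fun i => ∃ h, A ⟨i, h⟩)
      obtain ⟨s, hs, t, ht, h1, h2, h3⟩ := hC hS Ac hAc
        ⟨x.1, x.2.1, x.2.2, (hA _ x.2.1).2 ⟨x.2, hx⟩⟩
        ⟨y.1, y.2.1, y.2.2, fun h' => by
          obtain ⟨_, h''⟩ := (hA _ y.2.1).1 h'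
          exact hy h''⟩
      obtain ⟨hs', hs''⟩ := (hA _ hs).1 h2
      have ht' : t < K ∧ rel K Rc t t := ⟨ht, (hG _ ht _ hs (hG _ hs _ ht h1).1).2⟩
      exact ⟨⟨s, hs'⟩, ⟨t, ht'⟩, h1, hs'', fun h' => h3 ((hA _ ht).2 ⟨ht', h'⟩)⟩
  refine (tv_congr' φ ?_ ?_ ?_).1 (h _ M hok)
  · intro a b
    simp only [Model.w, wN, M, ev_subtype]
    exact ⟨fun H x h1 h2 => H ⟨x, h1, h2⟩, fun H x => H x.1 x.2.1 x.2.2⟩
  · intro a b
    simp only [Model.w, wN, M, ev_subtype]
    constructor
    · rintro ⟨x, y, h1, h2, h3⟩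
      exact ⟨x.1, x.2.1, y.1, y.2.1, h1, h2, h3⟩
    · rintro ⟨x, hx, y, hy, h1, h2, h3⟩
      exact ⟨⟨x, hx, (hG _ hx _ hy h1).2⟩, ⟨y, hy, (hG _ hy _ hx (hG _ hx _ hy h1).1).2⟩,
        h1, h2, h3⟩
  · intro a
    simp only [Model.w, wN, M, ev_subtype]
    exact ⟨fun H x h1 h2 => H ⟨x, h1, h2⟩, fun H x => H x.1 x.2.1 x.2.2⟩

/-- The minterm of the point `x` over the first `n` variables. -/
def mint (x : ℕ) : ℕ → Term
  | 0 => .one
  | n + 1 => (mint x n).mul (if x.testBit n then .var n else (Term.var n).star)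

theorem mint_congr {x y : ℕ} (n : ℕ) (h : ∀ i < n, x.testBit i = y.testBit i) :
    mint x n = mint y n := by
  induction n with
  | zero => rfl
  | succ n ih =>
    simp only [mint, ih fun i hi => h i (Nat.lt_succ_of_lt hi), h n (Nat.lt_succ_self n)]

theorem mint_occ (x n p : ℕ) (h : (mint x n).Occ p) : p < n := by
  induction n with
  | zero => exact h.elim
  | succ n ih =>
    rcases h with h | h
    · exact Nat.lt_succ_of_lt (ih h)
    · split_ifs at h
      · have : n = p := h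
        omega
      · have : n = p := h
        omega

theorem mint_ev (x y n : ℕ) :
    (mint x n).ev bitv y ↔ ∀ i < n, x.testBit i = y.testBit i := by
  induction n with
  | zero => simp [mint, Term.ev]
  | succ n ih =>
    simp only [mint, Term.ev, ih, Nat.forall_lt_succ_right]
    apply and_congr_right
    intro _
    cases hx : x.testBit n <;> simp [Term.ev, bitv]

theorem mint_ev' {x y n : ℕ} (hx : x < 2 ^ n) (hy : y < 2 ^ n) :
    (mint x n).ev bitv y ↔ x = y := by
  rw [mint_ev]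
  constructor
  · intro h
    apply Nat.eq_of_testBit_eq
    intro i
    by_cases hi : i < n
    · exact h i hi
    · have : 2 ^ n ≤ 2 ^ i := Nat.pow_le_pow_right (by norm_num) (by omega)
      rw [Nat.testBit_lt_two_pow (by omega), Nat.testBit_lt_two_pow (by omega)]
  · rintro rfl i _
    rfl

/-- The sum of the minterms of the points below `k` lying in the set coded by `A`. -/
def sumT (A n : ℕ) : ℕ → Term
  | 0 => .zero
  | k + 1 => if A.testBit k then (sumT A n k).add (mint k n) else sumT A n k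

theorem sumT_occ (A n k p : ℕ) (h : (sumT A n k).Occ p) : p < n := by
  induction k with
  | zero => exact h.elim
  | succ k ih =>
    unfold sumT at h
    split_ifs at h
    · exact h.elim ih (mint_occ _ _ _)
    · exact ih h

theorem sumT_ev (A n k y : ℕ) (hk : k ≤ 2 ^ n) (hy : y < 2 ^ n) :
    (sumT A n k).ev bitv y ↔ y < k ∧ A.testBit y = true := by
  induction k with
  | zero => simp [sumT, Term.ev]
  | succ k ih =>
    unfold sumT
    split_ifs with hA
    · simp only [Term.ev, ih (by omega), mint_ev' (show k < 2 ^ n by omega) hy]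
      constructor
      · rintro (h | h)
        · exact ⟨by omega, h.2⟩
        · subst h
          exact ⟨by omega, hA⟩
      · rintro ⟨h1, h2⟩
        by_cases h : k = y
        · exact Or.inr h
        · exact Or.inl ⟨by omega, h2⟩
    · rw [ih (by omega)]
      constructor
      · rintro ⟨h1, h2⟩
        exact ⟨by omega, h2⟩
      · rintro ⟨h1, h2⟩
        refine ⟨?_, h2⟩
        by_contra h
        have : y = k := by omega
        exact hA (this ▸ h2)

section Theory

variable {S : Set Opt} {w : Form → Prop} (hw : ∀ ψ, Ax S ψ → ψ.tv w)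
include hw

theorem T_refl (a : Term) : w (.le a a) := hw _ (Ax.le_refl a)
theorem T_trans {a b c : Term} (h1 : w (.le a b)) (h2 : w (.le b c)) : w (.le a c) :=
  hw _ (Ax.le_trans a b c) ⟨h1, h2⟩
theorem T_ml (a b : Term) : w (.le (a.mul b) a) := hw _ (Ax.mul_le_left a b)
theorem T_mr (a b : Term) : w (.le (a.mul b) b) := hw _ (Ax.mul_le_right a b)
theorem T_lm {a b c : Term} (h1 : w (.le c a)) (h2 : w (.le c b)) : w (.le c (a.mul b)) :=
  hw _ (Ax.le_mul a b c) ⟨h1, h2⟩
theorem T_al (a b : Term) : w (.le a (a.add b)) := hw _ (Ax.le_add_left a b)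
theorem T_ar (a b : Term) : w (.le b (a.add b)) := hw _ (Ax.le_add_right a b)
theorem T_la {a b c : Term} (h1 : w (.le a c)) (h2 : w (.le b c)) : w (.le (a.add b) c) :=
  hw _ (Ax.add_le a b c) ⟨h1, h2⟩
theorem T_dist (a b c : Term) : w (.le (a.mul (b.add c)) ((a.mul b).add (a.mul c))) :=
  hw _ (Ax.distrib a b c)
theorem T_zero (a : Term) : w (.le .zero a) := hw _ (Ax.zero_le a)
theorem T_one (a : Term) : w (.le a .one) := hw _ (Ax.le_one a)

theorem T_split (c a : Term) : w (.le c ((c.mul a).add (c.mul a.star))) :=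
  T_trans hw (T_lm hw (T_refl hw c) (T_trans hw (T_one hw c) (hw _ (Ax.add_star a))))
    (T_dist hw _ _ _)

theorem T_symm {a b : Term} (h : w (.con a b)) : w (.con b a) := hw _ (Ax.con_symm a b) h

theorem T_mono_left {a a' b : Term} (h : w (.con a b)) (h1 : w (.le a a')) : w (.con a' b) := by
  have h2 : w (.con b (a.add a')) := (hw _ (Ax.con_add b a a')).2 (Or.inl (T_symm hw h))
  exact hw _ (Ax.con_congr (a.add a') a' b) ⟨T_la hw h1 (T_refl hw _), T_ar hw _ _⟩ (T_symm hw h2)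

theorem T_mono {a a' b b' : Term} (h : w (.con a b)) (h1 : w (.le a a')) (h2 : w (.le b b')) :
    w (.con a' b') :=
  T_symm hw (T_mono_left hw (T_symm hw (T_mono_left hw h h1)) h2)

theorem T_con_zero {a b : Term} (h : w (.con a b)) (h1 : w (.le a .zero)) : False :=
  (hw _ (Ax.con_ne a b) h).1 ⟨h1, T_zero hw a⟩

theorem T_con_self {a : Term} (h : ¬ w (.le a .zero)) : w (.con a a) :=
  hw _ (Ax.con_of_ne a a) fun h' => h (T_trans hw (T_lm hw (T_refl hw a) (T_refl hw a)) h'.1)

theorem T_mint_var (x n i : ℕ) (hi : i < n) :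
    w (.le (mint x n) (if x.testBit i then .var i else (Term.var i).star)) := by
  induction n with
  | zero => omega
  | succ n ih =>
    by_cases h : i = n
    · subst h
      exact T_mr hw _ _
    · exact T_trans hw (T_ml hw _ _) (ih (by omega))

theorem T_mint (x n : ℕ) (a : Term) (ha : ∀ p, a.Occ p → p < n) :
    (a.ev bitv x → w (.le (mint x n) a)) ∧
      (¬ a.ev bitv x → w (.le ((mint x n).mul a) .zero)) := by
  induction a with
  | var i =>
    have h := T_mint_var hw x n i (ha i rfl)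
    constructor
    · intro hx
      have hx' : x.testBit i = true := hx
      simpa [hx'] using h
    · intro hx
      have hx' : ¬ x.testBit i = true := hx
      rw [if_neg hx'] at h
      exact T_trans hw (T_lm hw (T_mr hw _ _) (T_trans hw (T_ml hw _ _) h)) (hw _ (Ax.mul_star _))
  | zero => exact ⟨fun h => h.elim, fun _ => T_mr hw _ _⟩
  | one => exact ⟨fun _ => T_one hw _, fun h => (h trivial).elim⟩
  | add a b iha ihb =>
    have iha := iha fun p h => ha p (Or.inl h)
    have ihb := ihb fun p h => ha p (Or.inr h)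
    constructor
    · rintro (h | h)
      · exact T_trans hw (iha.1 h) (T_al hw _ _)
      · exact T_trans hw (ihb.1 h) (T_ar hw _ _)
    · intro h
      exact T_trans hw (T_dist hw _ _ _)
        (T_la hw (iha.2 fun h' => h (Or.inl h')) (ihb.2 fun h' => h (Or.inr h')))
  | mul a b iha ihb =>
    have iha := iha fun p h => ha p (Or.inl h)
    have ihb := ihb fun p h => ha p (Or.inr h)
    constructor
    · rintro ⟨h1, h2⟩
      exact T_lm hw (iha.1 h1) (ihb.1 h2)
    · intro h
      by_cases h1 : a.ev bitv x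
      · exact T_trans hw (T_lm hw (T_ml hw _ _) (T_trans hw (T_mr hw _ _) (T_mr hw _ _)))
          (ihb.2 fun h2 => h ⟨h1, h2⟩)
      · exact T_trans hw (T_lm hw (T_ml hw _ _) (T_trans hw (T_mr hw _ _) (T_ml hw _ _)))
          (iha.2 h1)
  | star a iha =>
    have iha := iha ha
    constructor
    · intro h
      exact T_trans hw (T_split hw _ a)
        (T_la hw (T_trans hw (iha.2 h) (T_zero hw _)) (T_mr hw _ _))
    · intro h
      have h' : a.ev bitv x := not_not.1 h
      exact T_trans hw (T_lm hw (T_trans hw (T_ml hw _ _) (iha.1 h')) (T_mr hw _ _))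
        (hw _ (Ax.mul_star _))

theorem T_ideal (I : Term → Prop) (hdown : ∀ a b, w (.le a b) → I b → I a)
    (hadd : ∀ a b, I a → I b → I (a.add b)) (n : ℕ) (c : Term)
    (h : ∀ x < 2 ^ n, I (c.mul (mint x n))) : I c := by
  induction n with
  | zero => exact hdown _ _ (T_lm hw (T_refl hw c) (T_one hw c)) (h 0 (by norm_num))
  | succ n ih =>
    apply ih
    intro x hx
    have h1 := h x (by omega)
    have h2 := h (2 ^ n + x) (by omega)
    have e1 : x.testBit n = false := Nat.testBit_lt_two_pow hx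
    have e2 : (2 ^ n + x).testBit n = true := by rw [Nat.testBit_two_pow_add_eq, e1]; rfl
    have e3 : mint (2 ^ n + x) n = mint x n :=
      mint_congr n fun i hi => Nat.testBit_two_pow_add_gt hi x
    simp only [mint, e1, e2, e3, if_true, Bool.false_eq_true, if_false] at h1 h2
    refine hdown _ _ (T_split hw _ (.var n)) (hadd _ _ (hdown _ _ ?_ h2) (hdown _ _ ?_ h1))
    · exact T_lm hw (T_trans hw (T_ml hw _ _) (T_ml hw _ _))
        (T_lm hw (T_trans hw (T_ml hw _ _) (T_mr hw _ _)) (T_mr hw _ _))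
    · exact T_lm hw (T_trans hw (T_ml hw _ _) (T_ml hw _ _))
        (T_lm hw (T_trans hw (T_ml hw _ _) (T_mr hw _ _)) (T_mr hw _ _))

theorem T_comm (a b : Term) : w (.le (a.mul b) (b.mul a)) := T_lm hw (T_mr hw _ _) (T_ml hw _ _)

theorem T_le_iff (n : ℕ) (a b : Term) (ha : ∀ p, a.Occ p → p < n) (hb : ∀ p, b.Occ p → p < n) :
    w (.le a b) ↔ ∀ x < 2 ^ n, w (.con (mint x n) (mint x n)) → a.ev bitv x → b.ev bitv x := by
  constructor
  · intro h x _ hc hx
    by_contra hy
    exact T_con_zero hw hc (T_trans hw (T_lm hw (T_refl hw _)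
      (T_trans hw ((T_mint hw x n a ha).1 hx) h)) ((T_mint hw x n b hb).2 hy))
  · intro h
    refine T_ideal hw (fun c => w (.le c b)) (fun c d h1 h2 => T_trans hw h1 h2)
      (fun c d h1 h2 => T_la hw h1 h2) n a fun x hx => ?_
    by_cases h0 : w (.le (mint x n) .zero)
    · exact T_trans hw (T_mr hw _ _) (T_trans hw h0 (T_zero hw _))
    · by_cases h1 : a.ev bitv x
      · exact T_trans hw (T_mr hw _ _) ((T_mint hw x n b hb).1 (h x hx (T_con_self hw h0) h1))
      · exact T_trans hw (T_comm hw _ _) (T_trans hw ((T_mint hw x n a ha).2 h1) (T_zero hw _))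

theorem T_con_iff (n : ℕ) (a b : Term) (ha : ∀ p, a.Occ p → p < n) (hb : ∀ p, b.Occ p → p < n) :
    w (.con a b) ↔ ∃ x < 2 ^ n, ∃ y < 2 ^ n, w (.con (mint x n) (mint y n)) ∧
      a.ev bitv x ∧ b.ev bitv y := by
  constructor
  · intro h
    by_contra H
    have hI : ∀ d : Term, ∀ c e, ¬ w (.con d c) → ¬ w (.con d e) → ¬ w (.con d (c.add e)) :=
      fun d c e h1 h2 h3 => ((hw _ (Ax.con_add d c e)).1 h3).elim h1 h2
    have hD : ∀ d : Term, ∀ c e, w (.le c e) → ¬ w (.con d e) → ¬ w (.con d c) :=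
      fun d c e h1 h2 h3 => h2 (T_mono hw h3 (T_refl hw _) h1)
    refine T_ideal hw (fun c => ¬ w (.con a c)) (hD a) (hI a) n b (fun y hy h1 => ?_) h
    refine T_ideal hw (fun c => ¬ w (.con (b.mul (mint y n)) c)) (hD _) (hI _) n a
      (fun x hx h2 => ?_) (T_symm hw h1)
    by_cases hxa : a.ev bitv x
    · by_cases hyb : b.ev bitv y
      · exact H ⟨x, hx, y, hy, T_mono hw (T_symm hw h2) (T_mr hw _ _) (T_mr hw _ _), hxa, hyb⟩
      · exact T_con_zero hw h2 (T_trans hw (T_comm hw _ _) ((T_mint hw y n b hb).2 hyb))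
    · exact T_con_zero hw (T_symm hw h2) (T_trans hw (T_comm hw _ _) ((T_mint hw x n a ha).2 hxa))
  · rintro ⟨x, -, y, -, h, hx, hy⟩
    exact T_mono hw h ((T_mint hw x n a ha).1 hx) ((T_mint hw y n b hb).1 hy)

theorem T_bnd_iff (n : ℕ) (a : Term) (ha : ∀ p, a.Occ p → p < n) :
    w (.bnd a) ↔ ∀ x < 2 ^ n, w (.con (mint x n) (mint x n)) → a.ev bitv x →
      w (.bnd (mint x n)) := by
  have hD : ∀ c d, w (.le c d) → w (.bnd d) → w (.bnd c) := fun c d h1 h2 =>
    hw _ (Ax.bnd_mono c d) ⟨h2, h1⟩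
  constructor
  · intro h x _ _ hx
    exact hD _ _ ((T_mint hw x n a ha).1 hx) h
  · intro h
    refine T_ideal hw (fun c => w (.bnd c)) hD
      (fun c d h1 h2 => hw _ (Ax.bnd_add c d) ⟨h1, h2⟩) n a fun x hx => ?_
    by_cases h0 : w (.le (mint x n) .zero)
    · exact hD _ _ (T_trans hw (T_mr hw _ _) h0) (hw _ Ax.bnd_zero)
    · by_cases h1 : a.ev bitv x
      · exact hD _ _ (T_mr hw _ _) (h x hx (T_con_self hw h0) h1)
      · exact hD _ _ (T_trans hw (T_comm hw _ _) ((T_mint hw x n a ha).2 h1)) (hw _ Ax.bnd_zero)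

end Theory

theorem complete {S : Set Opt} {φ : Form} (n : ℕ) (hn : ∀ p, φ.Occ p → p < n)
    (h : ValidN S (2 ^ n) φ) : Thm S φ := by
  by_contra hφ
  obtain ⟨w, hw0, hwφ⟩ := lindenbaum hφ
  have hw : ∀ ψ, Ax S ψ → ψ.tv w := fun ψ hψ => hw0 ψ (Thm.ax ψ hψ)
  have hK : 0 < 2 ^ n := by positivity
  obtain ⟨Rc, hRc, hR0⟩ := exists_bits (2 ^ n * 2 ^ n)
    (fun i => w (.con (mint (i / 2 ^ n) n) (mint (i % 2 ^ n) n)))
  obtain ⟨Bc, hBc, hB⟩ := exists_bits (2 ^ n) (fun i => w (.bnd (mint i n)))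
  have hR : ∀ x < 2 ^ n, ∀ y < 2 ^ n, rel (2 ^ n) Rc x y ↔ w (.con (mint x n) (mint y n)) := by
    intro x hx y hy
    have h1 : x * 2 ^ n + y < 2 ^ n * 2 ^ n := by nlinarith
    have h2 : (x * 2 ^ n + y) / 2 ^ n = x := by
      rw [mul_comm, Nat.mul_add_div hK, Nat.div_eq_of_lt hy, add_zero]
    have h3 : (x * 2 ^ n + y) % 2 ^ n = y := by
      rw [mul_comm, Nat.mul_add_mod, Nat.mod_eq_of_lt hy]
    unfold rel
    rw [hR0 _ h1, h2, h3]
  have hle : ∀ a b : Term, (∀ p, a.Occ p → p < n) → (∀ p, b.Occ p → p < n) →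
      (wN (2 ^ n) Rc Bc (.le a b) ↔ w (.le a b)) := by
    intro a b ha hb
    rw [T_le_iff hw n a b ha hb]
    exact forall₂_congr fun x hx => by rw [hR x hx x hx]
  have hcon : ∀ a b : Term, (∀ p, a.Occ p → p < n) → (∀ p, b.Occ p → p < n) →
      (wN (2 ^ n) Rc Bc (.con a b) ↔ w (.con a b)) := by
    intro a b ha hb
    rw [T_con_iff hw n a b ha hb]
    exact exists_congr fun x => and_congr_right fun hx => exists_congr fun y =>
      and_congr_right fun hy => by rw [hR x hx y hy]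
  have hbnd : ∀ a : Term, (∀ p, a.Occ p → p < n) →
      (wN (2 ^ n) Rc Bc (.bnd a) ↔ w (.bnd a)) := by
    intro a ha
    rw [T_bnd_iff hw n a ha]
    exact forall₂_congr fun x hx => by rw [hR x hx x hx, hB x hx]
  apply hwφ
  refine (tv_congr φ (fun a => ∀ p, a.Occ p → p < n) hle hcon hbnd n (fun a h => h) hn).1
    (h Rc hRc Bc hBc ?_ ?_ ?_)
  · intro x hx y hy hxy
    rw [hR x hx y hy] at hxy
    rw [hR y hy x hx, hR x hx x hx]
    exact ⟨T_symm hw hxy, T_con_self hw (T_con_zero hw hxy)⟩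
  · intro hS
    by_contra H
    apply hw _ (Ax.zero_ne_one hS)
    refine ⟨T_zero hw _, (hle .one .zero (fun p h => h.elim) (fun p h => h.elim)).1 ?_⟩
    intro x hx h1 _
    exact H ⟨x, hx, h1⟩
  · intro hS A _ ⟨x, hx, hx1, hx2⟩ ⟨y, hy, hy1, hy2⟩
    have hocc : ∀ p, (sumT A n (2 ^ n)).Occ p → p < n := sumT_occ A n _
    have hev : ∀ z < 2 ^ n, (sumT A n (2 ^ n)).ev bitv z ↔ A.testBit z = true := fun z hz => by
      rw [sumT_ev A n _ z le_rfl hz]
      exact and_iff_right hz
    have hc : w (.con (sumT A n (2 ^ n)) (sumT A n (2 ^ n)).star) := by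
      apply hw _ (Ax.conn _ hS)
      constructor
      · intro H
        exact (hle _ .zero hocc (fun p h => h.elim)).2 H.1 x hx hx1 ((hev x hx).2 hx2)
      · intro H
        exact hy2 ((hev y hy).1 ((hle .one _ (fun p h => h.elim) hocc).2 H.2 y hy hy1 trivial))
    obtain ⟨s, hs, t, ht, h1, h2, h3⟩ := (hcon _ (sumT A n (2 ^ n)).star hocc hocc).2 hc
    exact ⟨s, hs, t, ht, h1, (hev s hs).1 h2, fun h' => h3 ((hev t ht).2 h')⟩

theorem Term.occ_lt (a : Term) (p : ℕ) (h : a.Occ p) : p < a.code := by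
  induction a with
  | var i =>
    have : i = p := h
    simp only [Term.code]
    omega
  | zero => exact h.elim
  | one => exact h.elim
  | add a b iha ihb =>
    have h1 := Nat.left_le_pair a.code b.code
    have h2 := Nat.right_le_pair a.code b.code
    simp only [Term.code]
    rcases h with h | h
    · have := iha h; omega
    · have := ihb h; omega
  | mul a b iha ihb =>
    have h1 := Nat.left_le_pair a.code b.code
    have h2 := Nat.right_le_pair a.code b.code
    simp only [Term.code]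
    rcases h with h | h
    · have := iha h; omega
    · have := ihb h; omega
  | star a iha =>
    simp only [Term.code]
    have := iha h
    omega

theorem Form.occ_lt (φ : Form) (p : ℕ) (h : φ.Occ p) : p < φ.code := by
  induction φ with
  | le a b =>
    have h1 := Nat.left_le_pair a.code b.code
    have h2 := Nat.right_le_pair a.code b.code
    simp only [Form.code]
    rcases h with h | h
    · have := a.occ_lt p h; omega
    · have := b.occ_lt p h; omega
  | con a b =>
    have h1 := Nat.left_le_pair a.code b.code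
    have h2 := Nat.right_le_pair a.code b.code
    simp only [Form.code]
    rcases h with h | h
    · have := a.occ_lt p h; omega
    · have := b.occ_lt p h; omega
  | bnd a =>
    simp only [Form.code]
    have := a.occ_lt p h
    omega
  | neg φ ih =>
    simp only [Form.code]
    have := ih h
    omega
  | and a b iha ihb =>
    have h1 := Nat.left_le_pair a.code b.code
    have h2 := Nat.right_le_pair a.code b.code
    simp only [Form.code]
    rcases h with h | h
    · have := iha h; omega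
    · have := ihb h; omega
  | or a b iha ihb =>
    have h1 := Nat.left_le_pair a.code b.code
    have h2 := Nat.right_le_pair a.code b.code
    simp only [Form.code]
    rcases h with h | h
    · have := iha h; omega
    · have := ihb h; omega
  | imp a b iha ihb =>
    have h1 := Nat.left_le_pair a.code b.code
    have h2 := Nat.right_le_pair a.code b.code
    simp only [Form.code]
    rcases h with h | h
    · have := iha h; omega
    · have := ihb h; omega
  | iff a b iha ihb =>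
    have h1 := Nat.left_le_pair a.code b.code
    have h2 := Nat.right_le_pair a.code b.code
    simp only [Form.code]
    rcases h with h | h
    · have := iha h; omega
    · have := ihb h; omega

theorem thm_iff (S : Set Opt) (φ : Form) : Thm S φ ↔ ValidN S (2 ^ φ.code) φ :=
  ⟨fun h => (sound h).validN _, complete φ.code φ.occ_lt⟩

theorem consistent (S : Set Opt) : ¬ Thm S (.neg (.bnd .zero)) := by
  intro h
  let M : Model Unit :=
    { R := fun _ _ => True
      Bd := fun _ => True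
      v := fun _ _ => True
      refl := fun _ => trivial
      symm := fun _ _ _ => trivial }
  refine sound h Unit M ⟨fun _ => ⟨()⟩, fun _ A ⟨x, hx⟩ ⟨y, hy⟩ => (hy hx).elim⟩ ?_
  intro x _
  trivial

end Pool.Agent.Work.MP_ad6a67_lc
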