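import Pool.Agent.Work.MP_ad6a67_lc.Complete

/-!
The validity check on coded models is primitive recursive.
-/

namespace Pool.Agent.Work.MP_ad6a67_lc

open Primrec

section General

variable {α : Type} [Primcodable α]

theorem all_lt {f : α → ℕ} {R : α → ℕ → Prop} (hf : Primrec f)
    (hR : PrimrecPred fun p : α × ℕ => R p.1 p.2) : PrimrecPred fun a => ∀ x < f a, R a x := by
  have h1 : PrimrecRel fun (x : ℕ) (a : α) => R a x :=
    PrimrecPred.comp hR (Primrec.pair snd fst)
  exact (h1.forall_mem_list.comp (list_range.comp hf) Primrec.id).of_eq (by simp)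

theorem ex_lt {f : α → ℕ} {R : α → ℕ → Prop} (hf : Primrec f)
    (hR : PrimrecPred fun p : α × ℕ => R p.1 p.2) : PrimrecPred fun a => ∃ x < f a, R a x := by
  have h1 : PrimrecRel fun (x : ℕ) (a : α) => R a x :=
    PrimrecPred.comp hR (Primrec.pair snd fst)
  exact (h1.exists_mem_list.comp (list_range.comp hf) Primrec.id).of_eq (by simp)

theorem pr_imp {p q : α → Prop} (hp : PrimrecPred p) (hq : PrimrecPred q) :
    PrimrecPred fun a => p a → q a :=
  (hp.not.or hq).of_eq fun _ => imp_iff_not_or.symm

theorem pr_iff {p q : α → Prop} (hp : PrimrecPred p) (hq : PrimrecPred q) :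
    PrimrecPred fun a => p a ↔ q a :=
  ((pr_imp hp hq).and (pr_imp hq hp)).of_eq fun _ => iff_iff_implies_and_implies.symm

theorem pr_const (c : Prop) : PrimrecPred fun _ : α => c := by
  classical
  exact Primrec.primrecPred (Primrec.const _)

theorem pr_eq {f : α → ℕ} (hf : Primrec f) (c : ℕ) : PrimrecPred fun a => f a = c :=
  Primrec.eq.comp hf (Primrec.const c)

theorem pr_pow {f : α → ℕ} (hf : Primrec f) : Primrec fun a => 2 ^ f a :=
  (Primrec₂.unpaired'.1 Nat.Primrec.pow).comp (Primrec.const 2) hf

theorem pr_bit {f g : α → ℕ} (hf : Primrec f) (hg : Primrec g) :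
    PrimrecPred fun a => (f a).testBit (g a) = true :=
  (pr_eq (nat_mod.comp (nat_div.comp hf (pr_pow hg)) (Primrec.const 2)) 1).of_eq fun a => by
    simp [Nat.testBit_eq_decide_div_mod_eq]

theorem pr_get {f : α → List Bool} {g : α → ℕ} (hf : Primrec f) (hg : Primrec g) :
    PrimrecPred fun a => (f a).getD (g a) false = true :=
  Primrec.eq.comp ((list_getD false).comp hf hg) (Primrec.const true)

theorem pr_u1 {f : α → ℕ} (hf : Primrec f) : Primrec fun a => (f a).unpair.1 :=
  fst.comp (unpair.comp hf)

theorem pr_u2 {f : α → ℕ} (hf : Primrec f) : Primrec fun a => (f a).unpair.2 :=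
  snd.comp (unpair.comp hf)

theorem strong_rel (P : α → ℕ → Prop) (G : α × List Bool → Prop) (hG : PrimrecPred G)
    (H : ∀ a (L : List Bool), (∀ m < L.length, (L.getD m false = true ↔ P a m)) →
      (G (a, L) ↔ P a L.length)) : PrimrecRel P := by
  classical
  have h1 : Primrec₂ fun a n => decide (P a n) := by
    refine nat_strong_rec (fun a n => decide (P a n))
      (g := fun a L => some (decide (G (a, L)))) (option_some.comp hG.decide) fun a n => ?_
    have h2 := H a ((List.range n).map fun m => decide (P a m)) (by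
      intro m hm
      simp only [List.length_map, List.length_range] at hm
      simp [List.getD, hm])
    simp only [List.length_map, List.length_range] at h2
    simp only [h2]
  exact h1.primrecRel

end General

theorem Term.code_surj (n : ℕ) : ∃ a : Term, a.code = n := by
  induction n using Nat.strong_induction_on with
  | _ n ih =>
    by_cases h0 : n = 0
    · exact ⟨.zero, h0.symm⟩
    by_cases h1 : n = 1
    · exact ⟨.one, h1.symm⟩
    have hu1 := Nat.unpair_left_le ((n - 2) / 4)
    have hu2 := Nat.unpair_right_le ((n - 2) / 4)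
    obtain ⟨a, ha⟩ := ih ((n - 2) / 4).unpair.1 (by omega)
    obtain ⟨b, hb⟩ := ih ((n - 2) / 4).unpair.2 (by omega)
    obtain ⟨c, hc⟩ := ih ((n - 2) / 4) (by omega)
    have hp : Nat.pair a.code b.code = (n - 2) / 4 := by rw [ha, hb, Nat.pair_unpair]
    have : (n - 2) % 4 = 0 ∨ (n - 2) % 4 = 1 ∨ (n - 2) % 4 = 2 ∨ (n - 2) % 4 = 3 := by omega
    rcases this with h | h | h | h
    · exact ⟨.var ((n - 2) / 4), by simp only [Term.code]; omega⟩
    · exact ⟨.star c, by simp only [Term.code]; omega⟩
    · exact ⟨.add a b, by simp only [Term.code]; omega⟩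
    · exact ⟨.mul a b, by simp only [Term.code]; omega⟩

theorem Term.code_inj (a b : Term) (h : a.code = b.code) : a = b := by
  induction a generalizing b with
  | var i => cases b <;> simp only [Term.code] at h <;> first | omega | (congr 1; omega)
  | zero => cases b <;> simp only [Term.code] at h <;> first | omega | rfl
  | one => cases b <;> simp only [Term.code] at h <;> first | omega | rfl
  | star a ih =>
    cases b <;> simp only [Term.code] at h <;> first | omega | (congr 1; apply ih; omega)
  | add a a' ih ih' =>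
    cases b <;> simp only [Term.code] at h <;> try omega
    rename_i b b'
    have : Nat.pair a.code a'.code = Nat.pair b.code b'.code := by omega
    rw [Nat.pair_eq_pair] at this
    rw [ih b this.1, ih' b' this.2]
  | mul a a' ih ih' =>
    cases b <;> simp only [Term.code] at h <;> try omega
    rename_i b b'
    have : Nat.pair a.code a'.code = Nat.pair b.code b'.code := by omega
    rw [Nat.pair_eq_pair] at this
    rw [ih b this.1, ih' b' this.2]

theorem Form.code_surj (n : ℕ) : ∃ φ : Form, φ.code = n := by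
  induction n using Nat.strong_induction_on with
  | _ n ih =>
    have hu1 := Nat.unpair_left_le (n / 8)
    have hu2 := Nat.unpair_right_le (n / 8)
    obtain ⟨a, ha⟩ := Term.code_surj (n / 8).unpair.1
    obtain ⟨b, hb⟩ := Term.code_surj (n / 8).unpair.2
    obtain ⟨c, hc⟩ := Term.code_surj (n / 8)
    have hp : Nat.pair a.code b.code = n / 8 := by rw [ha, hb, Nat.pair_unpair]
    by_cases h3 : n % 8 < 3
    · have : n % 8 = 0 ∨ n % 8 = 1 ∨ n % 8 = 2 := by omega
      rcases this with h | h | h
      · exact ⟨.le a b, by simp only [Form.code]; omega⟩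
      · exact ⟨.con a b, by simp only [Form.code]; omega⟩
      · exact ⟨.bnd c, by simp only [Form.code]; omega⟩
    · obtain ⟨φ, hφ⟩ := ih (n / 8).unpair.1 (by omega)
      obtain ⟨ψ, hψ⟩ := ih (n / 8).unpair.2 (by omega)
      obtain ⟨χ, hχ⟩ := ih (n / 8) (by omega)
      have hq : Nat.pair φ.code ψ.code = n / 8 := by rw [hφ, hψ, Nat.pair_unpair]
      have : n % 8 = 3 ∨ n % 8 = 4 ∨ n % 8 = 5 ∨ n % 8 = 6 ∨ n % 8 = 7 := by omega
      rcases this with h | h | h | h | h
      · exact ⟨.neg χ, by simp only [Form.code]; omega⟩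
      · exact ⟨.and φ ψ, by simp only [Form.code]; omega⟩
      · exact ⟨.or φ ψ, by simp only [Form.code]; omega⟩
      · exact ⟨.imp φ ψ, by simp only [Form.code]; omega⟩
      · exact ⟨.iff φ ψ, by simp only [Form.code]; omega⟩

theorem Form.code_inj (φ ψ : Form) (h : φ.code = ψ.code) : φ = ψ := by
  induction φ generalizing ψ with
  | le a a' =>
    cases ψ <;> simp only [Form.code] at h <;> try omega
    rename_i b b'
    have : Nat.pair a.code a'.code = Nat.pair b.code b'.code := by omega
    rw [Nat.pair_eq_pair] at this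
    rw [Term.code_inj _ _ this.1, Term.code_inj _ _ this.2]
  | con a a' =>
    cases ψ <;> simp only [Form.code] at h <;> try omega
    rename_i b b'
    have : Nat.pair a.code a'.code = Nat.pair b.code b'.code := by omega
    rw [Nat.pair_eq_pair] at this
    rw [Term.code_inj _ _ this.1, Term.code_inj _ _ this.2]
  | bnd a =>
    cases ψ <;> simp only [Form.code] at h <;> try omega
    rename_i b
    rw [Term.code_inj a b (by omega)]
  | neg a ih =>
    cases ψ <;> simp only [Form.code] at h <;> try omega
    rename_i b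
    rw [ih b (by omega)]
  | and a a' ih ih' =>
    cases ψ <;> simp only [Form.code] at h <;> try omega
    rename_i b b'
    have : Nat.pair a.code a'.code = Nat.pair b.code b'.code := by omega
    rw [Nat.pair_eq_pair] at this
    rw [ih b this.1, ih' b' this.2]
  | or a a' ih ih' =>
    cases ψ <;> simp only [Form.code] at h <;> try omega
    rename_i b b'
    have : Nat.pair a.code a'.code = Nat.pair b.code b'.code := by omega
    rw [Nat.pair_eq_pair] at this
    rw [ih b this.1, ih' b' this.2]
  | imp a a' ih ih' =>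
    cases ψ <;> simp only [Form.code] at h <;> try omega
    rename_i b b'
    have : Nat.pair a.code a'.code = Nat.pair b.code b'.code := by omega
    rw [Nat.pair_eq_pair] at this
    rw [ih b this.1, ih' b' this.2]
  | iff a a' ih ih' =>
    cases ψ <;> simp only [Form.code] at h <;> try omega
    rename_i b b'
    have : Nat.pair a.code a'.code = Nat.pair b.code b'.code := by omega
    rw [Nat.pair_eq_pair] at this
    rw [ih b this.1, ih' b' this.2]

/-- Evaluation of the term with code `n` at the point `x`. -/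
def evC (x n : ℕ) : Prop := ∃ a : Term, a.code = n ∧ a.ev bitv x

theorem evC_code (x : ℕ) (a : Term) : evC x a.code ↔ a.ev bitv x :=
  ⟨fun ⟨_, h1, h2⟩ => Term.code_inj _ _ h1 ▸ h2, fun h => ⟨a, rfl, h⟩⟩

def evStep (p : ℕ × List Bool) : Prop :=
  p.2.length = 1 ∨ (¬ p.2.length = 0 ∧ ¬ p.2.length = 1 ∧
    (((p.2.length - 2) % 4 = 0 ∧ p.1.testBit ((p.2.length - 2) / 4) = true) ∨
     ((p.2.length - 2) % 4 = 1 ∧ ¬ p.2.getD ((p.2.length - 2) / 4) false = true) ∨
     ((p.2.length - 2) % 4 = 2 ∧ (p.2.getD ((p.2.length - 2) / 4).unpair.1 false = true ∨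
        p.2.getD ((p.2.length - 2) / 4).unpair.2 false = true)) ∨
     ((p.2.length - 2) % 4 = 3 ∧ (p.2.getD ((p.2.length - 2) / 4).unpair.1 false = true ∧
        p.2.getD ((p.2.length - 2) / 4).unpair.2 false = true))))

theorem evStep_pr : PrimrecPred evStep := by
  have hl : Primrec fun p : ℕ × List Bool => p.2.length := list_length.comp snd
  have h2 : Primrec fun p : ℕ × List Bool => p.2.length - 2 := nat_sub.comp hl (Primrec.const 2)
  have hr : Primrec fun p : ℕ × List Bool => (p.2.length - 2) % 4 :=
    nat_mod.comp h2 (Primrec.const 4)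
  have hm : Primrec fun p : ℕ × List Bool => (p.2.length - 2) / 4 :=
    nat_div.comp h2 (Primrec.const 4)
  exact (pr_eq hl 1).or ((pr_eq hl 0).not.and ((pr_eq hl 1).not.and
    (((pr_eq hr 0).and (pr_bit fst hm)).or
    (((pr_eq hr 1).and (pr_get snd hm).not).or
    (((pr_eq hr 2).and ((pr_get snd (pr_u1 hm)).or (pr_get snd (pr_u2 hm)))).or
    ((pr_eq hr 3).and ((pr_get snd (pr_u1 hm)).and (pr_get snd (pr_u2 hm)))))))))

theorem evC_pr : PrimrecRel evC := by
  refine strong_rel evC evStep evStep_pr fun x L H => ?_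
  obtain ⟨a, ha⟩ := Term.code_surj L.length
  rw [← ha] at H
  unfold evStep
  simp only [← ha, evC_code]
  cases a with
  | zero => simp [Term.code, Term.ev]
  | one => simp [Term.code, Term.ev]
  | var i =>
    have e1 : ((Term.var i).code - 2) % 4 = 0 := by simp only [Term.code]; omega
    have e2 : ((Term.var i).code - 2) / 4 = i := by simp only [Term.code]; omega
    have e3 : (Term.var i).code ≠ 0 := by simp only [Term.code]; omega
    have e4 : (Term.var i).code ≠ 1 := by simp only [Term.code]; omega
    simp [e1, e2, e3, e4, Term.ev, bitv]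
  | star a =>
    have e1 : ((Term.star a).code - 2) % 4 = 1 := by simp only [Term.code]; omega
    have e2 : ((Term.star a).code - 2) / 4 = a.code := by simp only [Term.code]; omega
    have e3 : (Term.star a).code ≠ 0 := by simp only [Term.code]; omega
    have e4 : (Term.star a).code ≠ 1 := by simp only [Term.code]; omega
    have h1 := H a.code (by simp only [Term.code]; omega)
    rw [evC_code] at h1
    simp only [e1, e2, e3, e4, Term.ev, h1]
    simp
  | add a b =>
    have l1 := Nat.left_le_pair a.code b.code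
    have l2 := Nat.right_le_pair a.code b.code
    have e1 : ((Term.add a b).code - 2) % 4 = 2 := by simp only [Term.code]; omega
    have e2 : ((Term.add a b).code - 2) / 4 = Nat.pair a.code b.code := by
      simp only [Term.code]; omega
    have e3 : (Term.add a b).code ≠ 0 := by simp only [Term.code]; omega
    have e4 : (Term.add a b).code ≠ 1 := by simp only [Term.code]; omega
    have h1 := H a.code (by simp only [Term.code]; omega)
    have h2 := H b.code (by simp only [Term.code]; omega)
    rw [evC_code] at h1 h2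
    simp only [e1, e2, e3, e4, Term.ev, Nat.unpair_pair, h1, h2]
    simp
  | mul a b =>
    have l1 := Nat.left_le_pair a.code b.code
    have l2 := Nat.right_le_pair a.code b.code
    have e1 : ((Term.mul a b).code - 2) % 4 = 3 := by simp only [Term.code]; omega
    have e2 : ((Term.mul a b).code - 2) / 4 = Nat.pair a.code b.code := by
      simp only [Term.code]; omega
    have e3 : (Term.mul a b).code ≠ 0 := by simp only [Term.code]; omega
    have e4 : (Term.mul a b).code ≠ 1 := by simp only [Term.code]; omega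
    have h1 := H a.code (by simp only [Term.code]; omega)
    have h2 := H b.code (by simp only [Term.code]; omega)
    rw [evC_code] at h1 h2
    simp only [e1, e2, e3, e4, Term.ev, Nat.unpair_pair, h1, h2]
    simp

section Atoms

variable {α : Type} [Primcodable α]

theorem pr_rel {K Rc x y : α → ℕ} (hK : Primrec K) (hR : Primrec Rc) (hx : Primrec x)
    (hy : Primrec y) : PrimrecPred fun a => rel (K a) (Rc a) (x a) (y a) :=
  pr_bit hR (nat_add.comp (nat_mul.comp hx hK) hy)

def leC (K Rc s t : ℕ) : Prop := ∀ x < K, rel K Rc x x → evC x s → evC x t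
def conC (K Rc s t : ℕ) : Prop := ∃ x < K, ∃ y < K, rel K Rc x y ∧ evC x s ∧ evC y t
def bndC (K Rc Bc s : ℕ) : Prop := ∀ x < K, rel K Rc x x → evC x s → Bc.testBit x = true

theorem pr_leC {K Rc s t : α → ℕ} (hK : Primrec K) (hR : Primrec Rc) (hs : Primrec s)
    (ht : Primrec t) : PrimrecPred fun a => leC (K a) (Rc a) (s a) (t a) :=
  all_lt hK (pr_imp (pr_rel (hK.comp fst) (hR.comp fst) snd snd)
    (pr_imp (evC_pr.comp snd (hs.comp fst)) (evC_pr.comp snd (ht.comp fst))))

theorem pr_conC {K Rc s t : α → ℕ} (hK : Primrec K) (hR : Primrec Rc) (hs : Primrec s)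
    (ht : Primrec t) : PrimrecPred fun a => conC (K a) (Rc a) (s a) (t a) :=
  ex_lt hK (ex_lt (hK.comp fst)
    ((pr_rel (hK.comp (fst.comp fst)) (hR.comp (fst.comp fst)) (snd.comp fst) snd).and
    ((evC_pr.comp (snd.comp fst) (hs.comp (fst.comp fst))).and
      (evC_pr.comp snd (ht.comp (fst.comp fst))))))

theorem pr_bndC {K Rc Bc s : α → ℕ} (hK : Primrec K) (hR : Primrec Rc) (hB : Primrec Bc)
    (hs : Primrec s) : PrimrecPred fun a => bndC (K a) (Rc a) (Bc a) (s a) :=
  all_lt hK (pr_imp (pr_rel (hK.comp fst) (hR.comp fst) snd snd)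
    (pr_imp (evC_pr.comp snd (hs.comp fst)) (pr_bit (hB.comp fst) snd)))

theorem pr_Good {K Rc : α → ℕ} (hK : Primrec K) (hR : Primrec Rc) :
    PrimrecPred fun a => Good (K a) (Rc a) :=
  all_lt hK (all_lt (hK.comp fst)
    (pr_imp (pr_rel (hK.comp (fst.comp fst)) (hR.comp (fst.comp fst)) (snd.comp fst) snd)
    ((pr_rel (hK.comp (fst.comp fst)) (hR.comp (fst.comp fst)) snd (snd.comp fst)).and
      (pr_rel (hK.comp (fst.comp fst)) (hR.comp (fst.comp fst)) (snd.comp fst) (snd.comp fst)))))

theorem pr_Nontriv {K Rc : α → ℕ} (hK : Primrec K) (hR : Primrec Rc) :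
    PrimrecPred fun a => NontrivN (K a) (Rc a) :=
  ex_lt hK (pr_rel (hK.comp fst) (hR.comp fst) snd snd)

theorem pr_Conn {K Rc : α → ℕ} (hK : Primrec K) (hR : Primrec Rc) :
    PrimrecPred fun a => ConnN (K a) (Rc a) :=
  all_lt (pr_pow hK) (pr_imp
    (ex_lt (hK.comp fst) ((pr_rel (hK.comp (fst.comp fst)) (hR.comp (fst.comp fst)) snd snd).and
      (pr_bit (snd.comp fst) snd)))
    (pr_imp
      (ex_lt (hK.comp fst) ((pr_rel (hK.comp (fst.comp fst)) (hR.comp (fst.comp fst)) snd snd).and
        (pr_bit (snd.comp fst) snd).not))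
      (ex_lt (hK.comp fst) (ex_lt (hK.comp (fst.comp fst))
        ((pr_rel (hK.comp (fst.comp (fst.comp fst))) (hR.comp (fst.comp (fst.comp fst)))
          (snd.comp fst) snd).and
        ((pr_bit (snd.comp (fst.comp fst)) (snd.comp fst)).and
          (pr_bit (snd.comp (fst.comp fst)) snd).not))))))

end Atoms

/-- Truth of the formula with code `n` in the coded model `P`. -/
def satC (P : ℕ × ℕ × ℕ) (n : ℕ) : Prop := ∃ φ : Form, φ.code = n ∧ φ.tv (wN P.1 P.2.1 P.2.2)

theorem satC_code (P : ℕ × ℕ × ℕ) (φ : Form) : satC P φ.code ↔ φ.tv (wN P.1 P.2.1 P.2.2) :=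
  ⟨fun ⟨_, h1, h2⟩ => Form.code_inj _ _ h1 ▸ h2, fun h => ⟨φ, rfl, h⟩⟩

def satStep (p : (ℕ × ℕ × ℕ) × List Bool) : Prop :=
  (p.2.length % 8 = 0 ∧ leC p.1.1 p.1.2.1 (p.2.length / 8).unpair.1 (p.2.length / 8).unpair.2) ∨
  (p.2.length % 8 = 1 ∧ conC p.1.1 p.1.2.1 (p.2.length / 8).unpair.1 (p.2.length / 8).unpair.2) ∨
  (p.2.length % 8 = 2 ∧ bndC p.1.1 p.1.2.1 p.1.2.2 (p.2.length / 8)) ∨
  (p.2.length % 8 = 3 ∧ ¬ p.2.getD (p.2.length / 8) false = true) ∨
  (p.2.length % 8 = 4 ∧ (p.2.getD (p.2.length / 8).unpair.1 false = true ∧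
    p.2.getD (p.2.length / 8).unpair.2 false = true)) ∨
  (p.2.length % 8 = 5 ∧ (p.2.getD (p.2.length / 8).unpair.1 false = true ∨
    p.2.getD (p.2.length / 8).unpair.2 false = true)) ∨
  (p.2.length % 8 = 6 ∧ (p.2.getD (p.2.length / 8).unpair.1 false = true →
    p.2.getD (p.2.length / 8).unpair.2 false = true)) ∨
  (p.2.length % 8 = 7 ∧ (p.2.getD (p.2.length / 8).unpair.1 false = true ↔
    p.2.getD (p.2.length / 8).unpair.2 false = true))

theorem satStep_pr : PrimrecPred satStep := by
  have hl : Primrec fun p : (ℕ × ℕ × ℕ) × List Bool => p.2.length := list_length.comp snd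
  have hr : Primrec fun p : (ℕ × ℕ × ℕ) × List Bool => p.2.length % 8 :=
    nat_mod.comp hl (Primrec.const 8)
  have hm : Primrec fun p : (ℕ × ℕ × ℕ) × List Bool => p.2.length / 8 :=
    nat_div.comp hl (Primrec.const 8)
  have hK : Primrec fun p : (ℕ × ℕ × ℕ) × List Bool => p.1.1 := fst.comp fst
  have hR : Primrec fun p : (ℕ × ℕ × ℕ) × List Bool => p.1.2.1 := fst.comp (snd.comp fst)
  have hB : Primrec fun p : (ℕ × ℕ × ℕ) × List Bool => p.1.2.2 := snd.comp (snd.comp fst)
  have g1 := pr_get (α := (ℕ × ℕ × ℕ) × List Bool) snd (pr_u1 hm)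
  have g2 := pr_get (α := (ℕ × ℕ × ℕ) × List Bool) snd (pr_u2 hm)
  exact ((pr_eq hr 0).and (pr_leC hK hR (pr_u1 hm) (pr_u2 hm))).or
    (((pr_eq hr 1).and (pr_conC hK hR (pr_u1 hm) (pr_u2 hm))).or
    (((pr_eq hr 2).and (pr_bndC hK hR hB hm)).or
    (((pr_eq hr 3).and (pr_get snd hm).not).or
    (((pr_eq hr 4).and (g1.and g2)).or
    (((pr_eq hr 5).and (g1.or g2)).or
    (((pr_eq hr 6).and (pr_imp g1 g2)).or
    ((pr_eq hr 7).and (pr_iff g1 g2))))))))

theorem satC_pr : PrimrecRel satC := by
  refine strong_rel satC satStep satStep_pr fun P L H => ?_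
  obtain ⟨φ, hφ⟩ := Form.code_surj L.length
  rw [← hφ] at H
  unfold satStep
  simp only [← hφ, satC_code]
  cases φ with
  | le a b =>
    have e1 : (Form.le a b).code % 8 = 0 := by simp only [Form.code]; omega
    have e2 : (Form.le a b).code / 8 = Nat.pair a.code b.code := by simp only [Form.code]; omega
    simp only [e1, e2, Nat.unpair_pair, Form.tv, wN, leC, evC_code]
    simp
  | con a b =>
    have e1 : (Form.con a b).code % 8 = 1 := by simp only [Form.code]; omega
    have e2 : (Form.con a b).code / 8 = Nat.pair a.code b.code := by simp only [Form.code]; omega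
    simp only [e1, e2, Nat.unpair_pair, Form.tv, wN, conC, evC_code]
    simp
  | bnd a =>
    have e1 : (Form.bnd a).code % 8 = 2 := by simp only [Form.code]; omega
    have e2 : (Form.bnd a).code / 8 = a.code := by simp only [Form.code]; omega
    simp only [e1, e2, Form.tv, wN, bndC, evC_code]
    simp
  | neg a =>
    have e1 : (Form.neg a).code % 8 = 3 := by simp only [Form.code]; omega
    have e2 : (Form.neg a).code / 8 = a.code := by simp only [Form.code]; omega
    have h1 := H a.code (by simp only [Form.code]; omega)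
    rw [satC_code] at h1
    simp only [e1, e2, Form.tv, h1]
    simp
  | and a b =>
    have l1 := Nat.left_le_pair a.code b.code
    have l2 := Nat.right_le_pair a.code b.code
    have e1 : (Form.and a b).code % 8 = 4 := by simp only [Form.code]; omega
    have e2 : (Form.and a b).code / 8 = Nat.pair a.code b.code := by simp only [Form.code]; omega
    have h1 := H a.code (by simp only [Form.code]; omega)
    have h2 := H b.code (by simp only [Form.code]; omega)
    rw [satC_code] at h1 h2
    simp only [e1, e2, Nat.unpair_pair, Form.tv, h1, h2]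
    simp
  | or a b =>
    have l1 := Nat.left_le_pair a.code b.code
    have l2 := Nat.right_le_pair a.code b.code
    have e1 : (Form.or a b).code % 8 = 5 := by simp only [Form.code]; omega
    have e2 : (Form.or a b).code / 8 = Nat.pair a.code b.code := by simp only [Form.code]; omega
    have h1 := H a.code (by simp only [Form.code]; omega)
    have h2 := H b.code (by simp only [Form.code]; omega)
    rw [satC_code] at h1 h2
    simp only [e1, e2, Nat.unpair_pair, Form.tv, h1, h2]
    simp
  | imp a b =>
    have l1 := Nat.left_le_pair a.code b.code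
    have l2 := Nat.right_le_pair a.code b.code
    have e1 : (Form.imp a b).code % 8 = 6 := by simp only [Form.code]; omega
    have e2 : (Form.imp a b).code / 8 = Nat.pair a.code b.code := by simp only [Form.code]; omega
    have h1 := H a.code (by simp only [Form.code]; omega)
    have h2 := H b.code (by simp only [Form.code]; omega)
    rw [satC_code] at h1 h2
    simp only [e1, e2, Nat.unpair_pair, Form.tv, h1, h2]
    simp
  | iff a b =>
    have l1 := Nat.left_le_pair a.code b.code
    have l2 := Nat.right_le_pair a.code b.code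
    have e1 : (Form.iff a b).code % 8 = 7 := by simp only [Form.code]; omega
    have e2 : (Form.iff a b).code / 8 = Nat.pair a.code b.code := by simp only [Form.code]; omega
    have h1 := H a.code (by simp only [Form.code]; omega)
    have h2 := H b.code (by simp only [Form.code]; omega)
    rw [satC_code] at h1 h2
    simp only [e1, e2, Nat.unpair_pair, Form.tv, h1, h2]
    simp

/-- The decision procedure on codes. -/
def Check (S : Set Opt) (n : ℕ) : Prop :=
  ∀ Rc < 2 ^ (2 ^ n * 2 ^ n), ∀ Bc < 2 ^ (2 ^ n), Good (2 ^ n) Rc →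
    (Opt.nontriv ∈ S → NontrivN (2 ^ n) Rc) → (Opt.conn ∈ S → ConnN (2 ^ n) Rc) →
    satC (2 ^ n, Rc, Bc) n

theorem check_pr (S : Set Opt) : PrimrecPred (Check S) := by
  have hK : Primrec fun p : (ℕ × ℕ) × ℕ => 2 ^ p.1.1 := pr_pow (fst.comp fst)
  have hR : Primrec fun p : (ℕ × ℕ) × ℕ => p.1.2 := snd.comp fst
  exact all_lt (pr_pow (nat_mul.comp (pr_pow Primrec.id) (pr_pow Primrec.id)))
    (all_lt (pr_pow (pr_pow fst))
      (pr_imp (pr_Good hK hR) (pr_imp (pr_imp (pr_const _) (pr_Nontriv hK hR))
        (pr_imp (pr_imp (pr_const _) (pr_Conn hK hR))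
          (satC_pr.comp (Primrec.pair hK (Primrec.pair hR snd)) (fst.comp fst))))))

theorem check_code (S : Set Opt) (φ : Form) : Check S φ.code ↔ Thm S φ := by
  rw [thm_iff]
  simp only [Check, ValidN, satC_code]

theorem decidable_thm (S : Set Opt) :
    ComputablePred fun n : ℕ => ∃ φ : Form, φ.code = n ∧ Thm S φ := by
  refine (check_pr S).computablePred.of_eq fun n => ?_
  obtain ⟨φ, rfl⟩ := Form.code_surj n
  rw [check_code]
  exact ⟨fun h => ⟨φ, rfl, h⟩, fun ⟨ψ, h1, h2⟩ => Form.code_inj _ _ h1 ▸ h2⟩

end Pool.Agent.Work.MP_ad6a67_lc
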