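import Mathlib.Computability.RE

/-!
The quantifier-free region logics PWRCC-Bound with Con, Ext, Nor: language, Goedel numbering,
axioms and rules.
-/

namespace Pool.Agent.Work.MP_ad6a67_lc

/-- Boolean terms over countably many variables, built with `0, 1, +, ·, *`. -/
inductive Term : Type
  | var : ℕ → Term
  | zero : Term
  | one : Term
  | add : Term → Term → Term
  | mul : Term → Term → Term
  | star : Term → Term

/-- Formulas: atoms `a ≤ b`, `a C b`, `B(a)`, closed under `¬, ∧, ∨, ⇒, ⇔`. -/
inductive Form : Type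
  | le : Term → Term → Form
  | con : Term → Term → Form
  | bnd : Term → Form
  | neg : Form → Form
  | and : Form → Form → Form
  | or : Form → Form → Form
  | imp : Form → Form → Form
  | iff : Form → Form → Form

/-- Goedel number of a term (a bijection from terms to natural numbers). -/
def Term.code : Term → ℕ
  | .zero => 0
  | .one => 1
  | .var i => 4 * i + 2
  | .star a => 4 * a.code + 3
  | .add a b => 4 * Nat.pair a.code b.code + 4
  | .mul a b => 4 * Nat.pair a.code b.code + 5

/-- Goedel number of a formula (a bijection from formulas to natural numbers). -/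
def Form.code : Form → ℕ
  | .le a b => 8 * Nat.pair a.code b.code
  | .con a b => 8 * Nat.pair a.code b.code + 1
  | .bnd a => 8 * a.code + 2
  | .neg φ => 8 * φ.code + 3
  | .and φ ψ => 8 * Nat.pair φ.code ψ.code + 4
  | .or φ ψ => 8 * Nat.pair φ.code ψ.code + 5
  | .imp φ ψ => 8 * Nat.pair φ.code ψ.code + 6
  | .iff φ ψ => 8 * Nat.pair φ.code ψ.code + 7

/-- The variable number `p` occurs in the term. -/
def Term.Occ (p : ℕ) : Term → Prop
  | .var i => i = p
  | .zero => False
  | .one => False
  | .add a b => a.Occ p ∨ b.Occ p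
  | .mul a b => a.Occ p ∨ b.Occ p
  | .star a => a.Occ p

/-- The variable number `p` occurs in the formula. -/
def Form.Occ (p : ℕ) : Form → Prop
  | .le a b => a.Occ p ∨ b.Occ p
  | .con a b => a.Occ p ∨ b.Occ p
  | .bnd a => a.Occ p
  | .neg φ => φ.Occ p
  | .and φ ψ => φ.Occ p ∨ ψ.Occ p
  | .or φ ψ => φ.Occ p ∨ ψ.Occ p
  | .imp φ ψ => φ.Occ p ∨ ψ.Occ p
  | .iff φ ψ => φ.Occ p ∨ ψ.Occ p

/-- Classical truth value of a formula when the atomic formulas get the truth values `w`. -/
def Form.tv (w : Form → Prop) : Form → Prop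
  | .le a b => w (.le a b)
  | .con a b => w (.con a b)
  | .bnd a => w (.bnd a)
  | .neg φ => ¬ φ.tv w
  | .and φ ψ => φ.tv w ∧ ψ.tv w
  | .or φ ψ => φ.tv w ∨ ψ.tv w
  | .imp φ ψ => φ.tv w → ψ.tv w
  | .iff φ ψ => φ.tv w ↔ ψ.tv w

/-- `a = b` abbreviates `a ≤ b ∧ b ≤ a`. -/
def Form.eq (a b : Term) : Form := .and (.le a b) (.le b a)

/-- `a ≠ b` abbreviates `¬ a = b`. -/
def Form.ne (a b : Term) : Form := .neg (Form.eq a b)

/-- `a ≪ b` abbreviates `¬ a C b*`. -/
def Form.ll (a b : Term) : Form := .neg (.con a b.star)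

/-- The optional parts of a system: (Con), the rule EXT, the rule NOR, and the scheme `0 ≠ 1`
(so that both conventions on whether Boolean algebras may be degenerate are covered). -/
inductive Opt : Type
  | conn : Opt
  | ext : Opt
  | nor : Opt
  | nontriv : Opt

/-- The non-propositional axiom schemes of the system with optional parts `S`. -/
inductive Ax (S : Set Opt) : Form → Prop
  -- terms form a Boolean algebra under `≤`
  | le_refl (a : Term) : Ax S (.le a a)
  | le_trans (a b c : Term) : Ax S (.imp (.and (.le a b) (.le b c)) (.le a c))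
  | mul_le_left (a b : Term) : Ax S (.le (a.mul b) a)
  | mul_le_right (a b : Term) : Ax S (.le (a.mul b) b)
  | le_mul (a b c : Term) : Ax S (.imp (.and (.le c a) (.le c b)) (.le c (a.mul b)))
  | le_add_left (a b : Term) : Ax S (.le a (a.add b))
  | le_add_right (a b : Term) : Ax S (.le b (a.add b))
  | add_le (a b c : Term) : Ax S (.imp (.and (.le a c) (.le b c)) (.le (a.add b) c))
  | distrib (a b c : Term) : Ax S (.le (a.mul (b.add c)) ((a.mul b).add (a.mul c)))
  | zero_le (a : Term) : Ax S (.le .zero a)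
  | le_one (a : Term) : Ax S (.le a .one)
  | mul_star (a : Term) : Ax S (.le (a.mul a.star) .zero)
  | add_star (a : Term) : Ax S (.le .one (a.add a.star))
  | zero_ne_one : Opt.nontriv ∈ S → Ax S (Form.ne .zero .one)
  -- replacement of equals in the contact relation
  | con_congr (a a' b : Term) : Ax S (.imp (Form.eq a a') (.imp (.con a b) (.con a' b)))
  -- contact
  | con_ne (a b : Term) : Ax S (.imp (.con a b) (.and (Form.ne a .zero) (Form.ne b .zero)))
  | con_symm (a b : Term) : Ax S (.imp (.con a b) (.con b a))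
  | con_add (a b c : Term) : Ax S (.iff (.con a (b.add c)) (.or (.con a b) (.con a c)))
  | con_of_ne (a b : Term) : Ax S (.imp (Form.ne (a.mul b) .zero) (.con a b))
  -- boundedness
  | bnd_zero : Ax S (.bnd .zero)
  | bnd_mono (a b : Term) : Ax S (.imp (.and (.bnd b) (.le a b)) (.bnd a))
  | bnd_add (a b : Term) : Ax S (.imp (.and (.bnd a) (.bnd b)) (.bnd (a.add b)))
  -- connectedness (Con)
  | conn (a : Term) : Opt.conn ∈ S →
      Ax S (.imp (.and (Form.ne a .zero) (Form.ne a .one)) (.con a a.star))

/-- The theorems of PWRCC-Bound extended by the optional parts `S`. -/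
inductive Thm (S : Set Opt) : Form → Prop
  | taut (φ : Form) : (∀ w : Form → Prop, φ.tv w) → Thm S φ
  | ax (φ : Form) : Ax S φ → Thm S φ
  | mp (φ ψ : Form) : Thm S (.imp φ ψ) → Thm S φ → Thm S ψ
  | bound1 (α : Form) (a b : Term) (p : ℕ) : ¬ a.Occ p → ¬ b.Occ p → ¬ α.Occ p →
      Thm S (.imp α (.imp (.and (.bnd (.var p)) (.le (.var p) b)) (.neg (.con a (.var p))))) →
      Thm S (.imp α (.neg (.con a b)))
  | bound2 (α : Form) (a : Term) (p : ℕ) : ¬ a.Occ p → ¬ α.Occ p →
      Thm S (.imp α (.imp (.bnd (.var p)) (.neg (Form.ll a (.var p))))) →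
      Thm S (.imp α (.neg (.bnd a)))
  | ext (α : Form) (a : Term) (p : ℕ) : Opt.ext ∈ S → ¬ a.Occ p → ¬ α.Occ p →
      Thm S (.imp α (.or (Form.eq (.var p) .zero) (.con a (.var p)))) →
      Thm S (.imp α (Form.eq a .one))
  | nor (α : Form) (a b : Term) (p : ℕ) : Opt.nor ∈ S → ¬ a.Occ p → ¬ b.Occ p → ¬ α.Occ p →
      Thm S (.imp α (.or (.con a (.var p)) (.con (Term.var p).star b))) →
      Thm S (.imp α (.con a b))

end Pool.Agent.Work.MP_ad6a67_lc
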