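import Pool.Agent.Work.MP_ad6a67_lc.Defs

/-!
Relational models and soundness (all four rules are admissible for validity in relational models).
-/

namespace Pool.Agent.Work.MP_ad6a67_lc

structure Model (X : Type) where
  R : X → X → Prop
  Bd : X → Prop
  v : ℕ → X → Prop
  refl : ∀ x, R x x
  symm : ∀ x y, R x y → R y x

def Term.ev {X : Type} (v : ℕ → X → Prop) (x : X) : Term → Prop
  | .var i => v i x
  | .zero => False
  | .one => True
  | .add a b => a.ev v x ∨ b.ev v x
  | .mul a b => a.ev v x ∧ b.ev v x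
  | .star a => ¬ a.ev v x

def Model.w {X : Type} (M : Model X) : Form → Prop
  | .le a b => ∀ x, a.ev M.v x → b.ev M.v x
  | .con a b => ∃ x y, M.R x y ∧ a.ev M.v x ∧ b.ev M.v y
  | .bnd a => ∀ x, a.ev M.v x → M.Bd x
  | _ => True

def Model.Conn {X : Type} (M : Model X) : Prop :=
  ∀ A : X → Prop, (∃ x, A x) → (∃ y, ¬ A y) → ∃ x y, M.R x y ∧ A x ∧ ¬ A y

def Model.Ok {X : Type} (S : Set Opt) (M : Model X) : Prop :=
  (Opt.nontriv ∈ S → Nonempty X) ∧ (Opt.conn ∈ S → M.Conn)

def Valid (S : Set Opt) (φ : Form) : Prop :=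
  ∀ (X : Type) (M : Model X), M.Ok S → φ.tv M.w

/-- A doubling of a model which does not change the truth of formulas without the variable `p`. -/
structure Cover {X : Type} (M : Model X) (N : Model (X × Bool)) (p : ℕ) : Prop where
  down : ∀ s t, N.R s t → M.R s.1 t.1
  up : ∀ x y, M.R x y → ∃ i j, N.R (x, i) (y, j)
  fib : ∀ x i j, N.R (x, i) (x, j)
  bd : ∀ x, M.Bd x ↔ ∀ i, N.Bd (x, i)
  val : ∀ q, q ≠ p → ∀ s, N.v q s ↔ M.v q s.1

theorem Cover.ev {X : Type} {M : Model X} {N : Model (X × Bool)} {p : ℕ} (h : Cover M N p)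
    (a : Term) (ha : ¬ a.Occ p) (s : X × Bool) : a.ev N.v s ↔ a.ev M.v s.1 := by
  induction a with
  | var i => exact h.val i ha s
  | zero => exact Iff.rfl
  | one => exact Iff.rfl
  | add a b iha ihb =>
    simp only [Term.Occ, not_or] at ha
    simp only [Term.ev, iha ha.1, ihb ha.2]
  | mul a b iha ihb =>
    simp only [Term.Occ, not_or] at ha
    simp only [Term.ev, iha ha.1, ihb ha.2]
  | star a iha =>
    simp only [Term.Occ] at ha
    simp only [Term.ev, iha ha]

theorem Cover.tv {X : Type} {M : Model X} {N : Model (X × Bool)} {p : ℕ} (h : Cover M N p)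
    (φ : Form) (hφ : ¬ φ.Occ p) : φ.tv N.w ↔ φ.tv M.w := by
  induction φ with
  | le a b =>
    simp only [Form.Occ, not_or] at hφ
    simp only [Form.tv, Model.w, h.ev a hφ.1, h.ev b hφ.2]
    exact ⟨fun H x => H (x, true), fun H s => H s.1⟩
  | con a b =>
    simp only [Form.Occ, not_or] at hφ
    simp only [Form.tv, Model.w, h.ev a hφ.1, h.ev b hφ.2]
    constructor
    · rintro ⟨s, t, h1, h2, h3⟩
      exact ⟨s.1, t.1, h.down s t h1, h2, h3⟩
    · rintro ⟨x, y, h1, h2, h3⟩
      obtain ⟨i, j, hij⟩ := h.up x y h1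
      exact ⟨(x, i), (y, j), hij, h2, h3⟩
  | bnd a =>
    simp only [Form.Occ] at hφ
    simp only [Form.tv, Model.w, h.ev a hφ]
    constructor
    · intro H x hx
      exact (h.bd x).2 fun i => H (x, i) hx
    · rintro H ⟨x, i⟩ hx
      exact (h.bd x).1 (H x hx) i
  | neg φ ih =>
    simp only [Form.Occ] at hφ
    simp only [Form.tv, ih hφ]
  | and φ ψ ih1 ih2 =>
    simp only [Form.Occ, not_or] at hφ
    simp only [Form.tv, ih1 hφ.1, ih2 hφ.2]
  | or φ ψ ih1 ih2 =>
    simp only [Form.Occ, not_or] at hφ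
    simp only [Form.tv, ih1 hφ.1, ih2 hφ.2]
  | imp φ ψ ih1 ih2 =>
    simp only [Form.Occ, not_or] at hφ
    simp only [Form.tv, ih1 hφ.1, ih2 hφ.2]
  | iff φ ψ ih1 ih2 =>
    simp only [Form.Occ, not_or] at hφ
    simp only [Form.tv, ih1 hφ.1, ih2 hφ.2]

theorem Cover.ok {X : Type} {M : Model X} {N : Model (X × Bool)} {p : ℕ} (h : Cover M N p)
    {S : Set Opt} (hM : M.Ok S) : N.Ok S := by
  refine ⟨fun hS => ?_, fun hS => ?_⟩
  · obtain ⟨x⟩ := hM.1 hS
    exact ⟨(x, true)⟩
  · intro A ⟨s, hs⟩ ⟨t, ht⟩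
    by_cases hf : ∃ x i j, A (x, i) ∧ ¬ A (x, j)
    · obtain ⟨x, i, j, h1, h2⟩ := hf
      exact ⟨(x, i), (x, j), h.fib x i j, h1, h2⟩
    · push Not at hf
      obtain ⟨x, y, h1, h2, h3⟩ := hM.2 hS (fun x => A (x, true)) ⟨s.1, hf s.1 s.2 true hs⟩
        ⟨t.1, fun h' => ht (hf t.1 true t.2 h')⟩
      obtain ⟨i, j, hij⟩ := h.up x y h1
      exact ⟨(x, i), (y, j), hij, hf x true i h2, fun h' => h3 (hf y j true h')⟩

theorem ax_valid {S : Set Opt} {φ : Form} (h : Ax S φ) : Valid S φ := by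
  intro X M hM
  cases h with
  | zero_ne_one hS =>
    obtain ⟨x⟩ := hM.1 hS
    simp only [Form.ne, Form.eq, Form.tv, Model.w, Term.ev]
    exact fun H => H.2 x trivial
  | conn a hS =>
    simp only [Form.ne, Form.eq, Form.tv, Model.w, Term.ev]
    rintro ⟨h1, h2⟩
    apply hM.2 hS (fun x => a.ev M.v x)
    · by_contra H
      exact h1 ⟨fun x hx => H ⟨x, hx⟩, fun x hx => hx.elim⟩
    · by_contra H
      exact h2 ⟨fun _ _ => trivial, fun x _ => by_contra fun hx => H ⟨x, hx⟩⟩
  | con_congr a a' b =>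
    simp only [Form.eq, Form.tv, Model.w]
    rintro ⟨h1, -⟩ ⟨x, y, h2, h3, h4⟩
    exact ⟨x, y, h2, h1 x h3, h4⟩
  | con_ne a b =>
    simp only [Form.ne, Form.eq, Form.tv, Model.w, Term.ev]
    rintro ⟨x, y, -, h3, h4⟩
    exact ⟨fun H => H.1 x h3, fun H => H.1 y h4⟩
  | con_symm a b =>
    simp only [Form.tv, Model.w]
    rintro ⟨x, y, h2, h3, h4⟩
    exact ⟨y, x, M.symm _ _ h2, h4, h3⟩
  | con_add a b c =>
    simp only [Form.tv, Model.w, Term.ev]
    constructor
    · rintro ⟨x, y, h2, h3, h4 | h4⟩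
      · exact Or.inl ⟨x, y, h2, h3, h4⟩
      · exact Or.inr ⟨x, y, h2, h3, h4⟩
    · rintro (⟨x, y, h2, h3, h4⟩ | ⟨x, y, h2, h3, h4⟩)
      · exact ⟨x, y, h2, h3, Or.inl h4⟩
      · exact ⟨x, y, h2, h3, Or.inr h4⟩
  | con_of_ne a b =>
    simp only [Form.ne, Form.eq, Form.tv, Model.w, Term.ev]
    intro H
    by_contra H'
    exact H ⟨fun x hx => H' ⟨x, x, M.refl x, hx.1, hx.2⟩, fun x hx => hx.elim⟩
  | _ =>
    simp only [Form.tv, Model.w, Term.ev]
    tauto

/-- The new valuation: the variable `p` gets `P`, the others are pulled back. -/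
def newVal {X : Type} (M : Model X) (p : ℕ) (P : X × Bool → Prop) : ℕ → X × Bool → Prop :=
  fun q s => if q = p then P s else M.v q s.1

theorem newVal_self {X : Type} (M : Model X) (p : ℕ) (P : X × Bool → Prop) (s : X × Bool) :
    newVal M p P p s ↔ P s := by simp [newVal]

theorem newVal_ne {X : Type} (M : Model X) (p : ℕ) (P : X × Bool → Prop) (q : ℕ) (hq : q ≠ p)
    (s : X × Bool) : newVal M p P q s ↔ M.v q s.1 := by simp [newVal, hq]

theorem bound1_valid {S : Set Opt} (α : Form) (a b : Term) (p : ℕ) (ha : ¬ a.Occ p)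
    (hb : ¬ b.Occ p) (hα : ¬ α.Occ p)
    (h : Valid S (.imp α (.imp (.and (.bnd (.var p)) (.le (.var p) b)) (.neg (.con a (.var p)))))) :
    Valid S (.imp α (.neg (.con a b))) := by
  intro X M hM hα'
  rintro ⟨x, y, hxy, hx, hy⟩
  let P : X × Bool → Prop := fun s => s = (y, true)
  let N : Model (X × Bool) :=
    { R := fun s t => M.R s.1 t.1
      Bd := fun s => s.2 = true ∨ M.Bd s.1
      v := newVal M p P
      refl := fun s => M.refl s.1
      symm := fun s t => M.symm s.1 t.1 }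
  have hc : Cover M N p :=
    { down := fun s t h => h
      up := fun x y h => ⟨true, true, h⟩
      fib := fun x _ _ => M.refl x
      bd := fun x => ⟨fun h _ => Or.inr h, fun h => (h false).resolve_left (by simp)⟩
      val := fun q hq s => newVal_ne M p P q hq s }
  have key := h _ N (hc.ok hM) ((hc.tv α hα).2 hα')
  apply key
  · constructor
    · intro s hs
      have : s = (y, true) := (newVal_self M p P s).1 hs
      exact Or.inl (by rw [this])
    · intro s hs
      have : s = (y, true) := (newVal_self M p P s).1 hs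
      rw [hc.ev b hb, this]
      exact hy
  · exact ⟨(x, true), (y, true), hxy, (hc.ev a ha _).2 hx, (newVal_self M p P _).2 rfl⟩

theorem bound2_valid {S : Set Opt} (α : Form) (a : Term) (p : ℕ) (ha : ¬ a.Occ p)
    (hα : ¬ α.Occ p)
    (h : Valid S (.imp α (.imp (.bnd (.var p)) (.neg (Form.ll a (.var p)))))) :
    Valid S (.imp α (.neg (.bnd a))) := by
  intro X M hM hα' hB
  have hB' : ∀ x, a.ev M.v x → M.Bd x := hB
  let P : X × Bool → Prop := fun s => s.2 = true ∨ M.Bd s.1
  let N : Model (X × Bool) :=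
    { R := fun s t => M.R s.1 t.1 ∧ (a.ev M.v s.1 → t.2 = true ∨ M.Bd t.1) ∧
        (a.ev M.v t.1 → s.2 = true ∨ M.Bd s.1)
      Bd := fun s => s.2 = true ∨ M.Bd s.1
      v := newVal M p P
      refl := fun s => ⟨M.refl s.1, fun h => Or.inr (hB' _ h), fun h => Or.inr (hB' _ h)⟩
      symm := fun s t h => ⟨M.symm s.1 t.1 h.1, h.2.2, h.2.1⟩ }
  have hc : Cover M N p :=
    { down := fun s t h => h.1
      up := fun x y h => ⟨true, true, h, fun _ => Or.inl rfl, fun _ => Or.inl rfl⟩
      fib := fun x _ _ => ⟨M.refl x, fun h => Or.inr (hB' _ h), fun h => Or.inr (hB' _ h)⟩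
      bd := fun x => ⟨fun h _ => Or.inr h, fun h => (h false).resolve_left (by simp)⟩
      val := fun q hq s => newVal_ne M p P q hq s }
  have key := h _ N (hc.ok hM) ((hc.tv α hα).2 hα')
  apply key
  · intro s hs
    exact (newVal_self M p P s).1 hs
  · rintro ⟨s, t, hst, hs, ht⟩
    apply ht
    exact (newVal_self M p P t).2 (hst.2.1 ((hc.ev a ha s).1 hs))

theorem ext_valid {S : Set Opt} (α : Form) (a : Term) (p : ℕ) (ha : ¬ a.Occ p)
    (hα : ¬ α.Occ p)
    (h : Valid S (.imp α (.or (Form.eq (.var p) .zero) (.con a (.var p))))) :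
    Valid S (.imp α (Form.eq a .one)) := by
  intro X M hM hα'
  refine ⟨fun _ _ => trivial, fun y _ => ?_⟩
  by_contra hy
  let P : X × Bool → Prop := fun s => s = (y, true)
  let N : Model (X × Bool) :=
    { R := fun s t => s.1 = t.1 ∨ (M.R s.1 t.1 ∧ s.2 = false ∧ t.2 = false)
      Bd := fun s => M.Bd s.1
      v := newVal M p P
      refl := fun s => Or.inl rfl
      symm := fun s t h => h.imp Eq.symm fun h => ⟨M.symm s.1 t.1 h.1, h.2.2, h.2.1⟩ }
  have hc : Cover M N p :=
    { down := fun s t h => h.elim (fun h => h ▸ M.refl _) fun h => h.1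
      up := fun x y h => ⟨false, false, Or.inr ⟨h, rfl, rfl⟩⟩
      fib := fun x _ _ => Or.inl rfl
      bd := fun x => ⟨fun h _ => h, fun h => h false⟩
      val := fun q hq s => newVal_ne M p P q hq s }
  have key := h _ N (hc.ok hM) ((hc.tv α hα).2 hα')
  rcases key with key | ⟨s, t, hst, hs, ht⟩
  · exact key.1 (y, true) ((newVal_self M p P _).2 rfl)
  · have ht' : t = (y, true) := (newVal_self M p P t).1 ht
    have hs' := (hc.ev a ha s).1 hs
    subst ht'
    rcases hst with hst | hst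
    · apply hy
      have : s.1 = y := hst
      rwa [this] at hs'
    · exact absurd hst.2.2 (by simp)

theorem nor_valid {S : Set Opt} (α : Form) (a b : Term) (p : ℕ) (ha : ¬ a.Occ p)
    (hb : ¬ b.Occ p) (hα : ¬ α.Occ p)
    (h : Valid S (.imp α (.or (.con a (.var p)) (.con (Term.var p).star b)))) :
    Valid S (.imp α (.con a b)) := by
  intro X M hM hα'
  by_contra hab
  have hab' : ∀ x y, M.R x y → a.ev M.v x → ¬ b.ev M.v y := fun x y h1 h2 h3 =>
    hab ⟨x, y, h1, h2, h3⟩
  let P : X × Bool → Prop := fun s => ¬ a.ev M.v s.1 ∧ (b.ev M.v s.1 ∨ s.2 = true)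
  let N : Model (X × Bool) :=
    { R := fun s t => M.R s.1 t.1 ∧ (a.ev M.v s.1 → ¬ P t) ∧ (a.ev M.v t.1 → ¬ P s) ∧
        (b.ev M.v s.1 → P t) ∧ (b.ev M.v t.1 → P s)
      Bd := fun s => M.Bd s.1
      v := newVal M p P
      refl := fun s => ⟨M.refl s.1, fun h h' => h'.1 h, fun h h' => h'.1 h,
        fun h => ⟨fun h' => hab' _ _ (M.refl _) h' h, Or.inl h⟩,
        fun h => ⟨fun h' => hab' _ _ (M.refl _) h' h, Or.inl h⟩⟩
      symm := fun s t h => ⟨M.symm s.1 t.1 h.1, h.2.2.1, h.2.1, h.2.2.2.2, h.2.2.2.1⟩ }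
  have hc : Cover M N p :=
    { down := fun s t h => h.1
      up := fun x y h => by
        have h1 := hab' x y h
        have h2 := hab' y x (M.symm _ _ h)
        have h3 := hab' x x (M.refl _)
        have h4 := hab' y y (M.refl _)
        classical
        refine ⟨decide (b.ev M.v y), decide (b.ev M.v x), h, ?_⟩
        simp only [P, decide_eq_true_eq]
        tauto
      fib := fun x _ _ => ⟨M.refl x, fun h h' => h'.1 h, fun h h' => h'.1 h,
        fun h => ⟨fun h' => hab' _ _ (M.refl _) h' h, Or.inl h⟩,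
        fun h => ⟨fun h' => hab' _ _ (M.refl _) h' h, Or.inl h⟩⟩
      bd := fun x => ⟨fun h _ => h, fun h => h false⟩
      val := fun q hq s => newVal_ne M p P q hq s }
  have key := h _ N (hc.ok hM) ((hc.tv α hα).2 hα')
  rcases key with ⟨s, t, hst, hs, ht⟩ | ⟨s, t, hst, hs, ht⟩
  · exact hst.2.1 ((hc.ev a ha s).1 hs) ((newVal_self M p P t).1 ht)
  · exact hs ((newVal_self M p P s).2 (hst.2.2.2.2 ((hc.ev b hb t).1 ht)))

theorem sound {S : Set Opt} {φ : Form} (h : Thm S φ) : Valid S φ := by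
  induction h with
  | taut φ h => exact fun X M _ => h M.w
  | ax φ h => exact ax_valid h
  | mp φ ψ _ _ ih1 ih2 => exact fun X M hM => ih1 X M hM (ih2 X M hM)
  | bound1 α a b p ha hb hα _ ih => exact bound1_valid α a b p ha hb hα ih
  | bound2 α a p ha hα _ ih => exact bound2_valid α a p ha hα ih
  | ext α a p _ ha hα _ ih => exact ext_valid α a p ha hα ih
  | nor α a b p _ ha hb hα _ ih => exact nor_valid α a b p ha hb hα ih

end Pool.Agent.Work.MP_ad6a67_lc
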